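import Pool.Agent.Helper4.CD.St

/-!
# Project CD (MP_a41ee4_co), module LAM: the end point of a traced walk is a linear function of the
right-hand sides, from a finite list
-/

set_option autoImplicit false

namespace Pool.Agent.Helper37.CD

open Pool.Agent.Helper4.CD

open Module

section

variable {K : Type} [Field K] [LinearOrder K] [IsStrictOrderedRing K] {V : Type} [AddCommGroup V] [Module K V]
  {κ : Type}

/-- the coefficient of one step -/
private noncomputable def phi (c : κ → Dual K V) (g : V) (k : κ) (L : (κ → K) →ₗ[K] V) : Dual K (κ → K) :=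
  (c k g)⁻¹ • (LinearMap.proj k - (c k).comp L)

private lemma phi_apply (c : κ → Dual K V) (g : V) (k : κ) (L : (κ → K) →ₗ[K] V) (ρ : κ → K) :
    phi c g k L ρ = (c k g)⁻¹ * (ρ k - c k (L ρ)) := rfl

/-- one step -/
private noncomputable def stp (c : κ → Dual K V) (g : V) (k : κ) (L : (κ → K) →ₗ[K] V) : (κ → K) →ₗ[K] V :=
  L + (phi c g k L).smulRight g

private lemma stp_apply (c : κ → Dual K V) (g : V) (k : κ) (L : (κ → K) →ₗ[K] V) (ρ : κ → K) :
    stp c g k L ρ = L ρ + phi c g k L ρ • g := rfl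

private lemma stp_scale (c : κ → Dual K V) (g : V) (k : κ) (L : (κ → K) →ₗ[K] V) (t : K) (ht : t ≠ 0) :
    stp c (t • g) k L = stp c g k L := by
  apply LinearMap.ext
  intro ρ
  rw [stp_apply, stp_apply, phi_apply, phi_apply, smul_smul, map_smul, smul_eq_mul, mul_inv]
  congr 2
  have h1 : t⁻¹ * (c k g)⁻¹ * (ρ k - c k (L ρ)) * t = (t⁻¹ * t) * ((c k g)⁻¹ * (ρ k - c k (L ρ))) := by ring
  rw [h1, inv_mul_cancel₀ ht, one_mul]

/-- the linear maps -/
private noncomputable def Lam (c : κ → Dual K V) (g : ℕ → V) (h : ℕ → κ) : ℕ → ((κ → K) →ₗ[K] V)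
  | 0 => 0
  | i + 1 => stp c (g i) (h i) (Lam c g h i)

open Classical in
/-- representatives of the circuits -/
private noncomputable def rep (c : κ → Dual K V) (Z : Set κ) : V :=
  if h : ∃ g : V, IsCircuit c g ∧ {k | c k g = 0} = Z then h.choose else 0

private lemma rep_spec (c : κ → Dual K V) (g : V) (hg : IsCircuit c g) :
    IsCircuit c (rep c {k | c k g = 0}) ∧ {k | c k (rep c {k | c k g = 0}) = 0} = {k | c k g = 0} := by
  have h : ∃ g' : V, IsCircuit c g' ∧ {k | c k g' = 0} = {k | c k g = 0} := ⟨g, hg, rfl⟩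
  unfold rep
  rw [dif_pos h]
  exact h.choose_spec

/-- the finite lists -/
private noncomputable def T (c : κ → Dual K V) : ℕ → Set ((κ → K) →ₗ[K] V)
  | 0 => {0}
  | i + 1 => ⋃ (Z : Set κ), ⋃ (k : κ), (fun L => stp c (rep c Z) k L) '' (T c i)

private lemma T_finite [Finite κ] (c : κ → Dual K V) (i : ℕ) : (T c i).Finite := by
  induction i with
  | zero => exact Set.finite_singleton 0
  | succ i ih =>
    unfold T
    exact Set.finite_iUnion fun Z => Set.finite_iUnion fun k => ih.image _

private lemma Lam_mem (h1 : StPROP) (c : κ → Dual K V) (hc : ∀ x, (∀ k, c k x = 0) → x = 0) (g : ℕ → V)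
    (h : ℕ → κ) (n : ℕ) (hg : ∀ i < n, IsCircuit c (g i)) (i : ℕ) (hi : i ≤ n) :
    Lam c g h i ∈ T c i := by
  induction i with
  | zero => exact Set.mem_singleton _
  | succ i ih =>
    have hi' : i < n := hi
    have h2 := ih hi'.le
    obtain ⟨h3, h4⟩ := rep_spec c (g i) (hg i hi')
    obtain ⟨t, ht, hgt⟩ := h1 K V κ c (rep c {k | c k (g i) = 0}) (g i) hc h3 (hg i hi') (by
      intro k
      have h5 : k ∈ {k | c k (rep c {k | c k (g i) = 0}) = 0} ↔ k ∈ {k | c k (g i) = 0} := by rw [h4]
      exact h5)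
    have h6 : Lam c g h (i + 1) = stp c (rep c {k | c k (g i) = 0}) (h i) (Lam c g h i) := by
      have h7 : Lam c g h (i + 1) = stp c (g i) (h i) (Lam c g h i) := rfl
      rw [h7]
      have h8 : stp c (g i) (h i) (Lam c g h i) =
          stp c (t • rep c {k | c k (g i) = 0}) (h i) (Lam c g h i) := by rw [← hgt]
      rw [h8, stp_scale _ _ _ _ _ ht]
    rw [h6]
    unfold T
    exact Set.mem_iUnion.2 ⟨_, Set.mem_iUnion.2 ⟨h i, Set.mem_image_of_mem _ h2⟩⟩

end

/-- Module LAM. -/
theorem hLAM (h1 : StPROP) : StLAM := by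
  intro K _ _ _ V _ _ κ _ c N hc
  have hfin : (⋃ i ∈ Set.Iic N, T c i).Finite :=
    Set.Finite.biUnion (Set.finite_Iic N) fun i _ => T_finite c i
  refine ⟨hfin.toFinset, ?_⟩
  intro n hn r z g h hT
  have hphi : ∀ i < n, ∀ ρ : κ → K, phi c (g i) (h i) (Lam c g h i) ρ * c (h i) (g i) =
      ρ (h i) - c (h i) (Lam c g h i ρ) := by
    intro i hi ρ
    have hneg := hT.neg i hi
    rw [phi_apply]
    have h2 : (c (h i) (g i))⁻¹ * (ρ (h i) - c (h i) (Lam c g h i ρ)) * c (h i) (g i) =
        ((c (h i) (g i))⁻¹ * c (h i) (g i)) * (ρ (h i) - c (h i) (Lam c g h i ρ)) := by ring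
    rw [h2, inv_mul_cancel₀ hneg.ne, one_mul]
  refine ⟨Lam c g h, fun i => phi c (g i) (h i) (Lam c g h i), ?_, rfl, fun i _ ρ => rfl, hphi, ?_⟩
  · rw [Set.Finite.mem_toFinset]
    exact Set.mem_biUnion (show n ∈ Set.Iic N from hn) (Lam_mem h1 c hc g h n hT.circ n le_rfl)
  · have key : ∀ i, i ≤ n → z i = z 0 + Lam c g h i (fun k => r k - c k (z 0)) := by
      intro i
      induction i with
      | zero =>
        intro _
        have : Lam c g h 0 (fun k => r k - c k (z 0)) = 0 := rfl
        rw [this, add_zero]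
      | succ i ih =>
        intro hi
        have hi' : i < n := hi
        have h3 := ih hi'.le
        obtain ⟨α, _, hα⟩ := hT.step i hi'
        have hhit := hT.hit i hi'
        have hneg := hT.neg i hi'
        have hp := hphi i hi' (fun k => r k - c k (z 0))
        have hα2 : α = phi c (g i) (h i) (Lam c g h i) (fun k => r k - c k (z 0)) := by
          apply mul_right_cancel₀ hneg.ne
          rw [hp]
          rw [hα, map_add, map_smul, smul_eq_mul, h3, map_add] at hhit
          linear_combination hhit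
        have h4 : Lam c g h (i + 1) (fun k => r k - c k (z 0)) =
            Lam c g h i (fun k => r k - c k (z 0)) +
              phi c (g i) (h i) (Lam c g h i) (fun k => r k - c k (z 0)) • g i := rfl
        rw [h4, ← hα2, ← add_assoc, ← h3]
        exact hα
    exact key n le_rfl

end Pool.Agent.Helper37.CD
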